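import Mathlib
set_option autoImplicit false
namespace Pool.Agent.TH941.DB
open Finset Module

theorem fin_supported {K : Type} [Field K] (S : Finset (ℤ × ℤ)) :
    FiniteDimensional K ↥(Finsupp.supported K K (↑S : Set (ℤ × ℤ))) :=
  Module.Finite.equiv (Finsupp.supportedEquivFinsupp (M := K) (R := K) (↑S : Set (ℤ × ℤ))).symm

theorem fin_inf {K : Type} [Field K] (S : Finset (ℤ × ℤ)) (V : Submodule K ((ℤ × ℤ) →₀ K)) :
    FiniteDimensional K ↥(Finsupp.supported K K (↑S : Set (ℤ × ℤ)) ⊓ V) := by
  haveI := fin_supported (K := K) S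
  exact Submodule.finiteDimensional_of_le inf_le_left

theorem exists_sub {K : Type} [Field K] (S : Finset (ℤ × ℤ)) (V : Submodule K ((ℤ × ℤ) →₀ K))
    {c : ℕ} (h : finrank K ↥(Finsupp.supported K K (↑S : Set (ℤ × ℤ)) ⊓ V) ≤ c) (hc : c ≤ S.card) :
    ∃ T ⊆ S, T.card + c = S.card ∧ Finsupp.supported K K (↑T : Set (ℤ × ℤ)) ⊓ V = ⊥ := by
  classical
  induction c generalizing S with
  | zero =>
    haveI := fin_inf (K := K) S V
    refine ⟨S, subset_rfl, by simp, ?_⟩
    exact Submodule.finrank_eq_zero.1 (by omega)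
  | succ c ih =>
    haveI := fin_inf (K := K) S V
    -- an element to erase
    obtain ⟨u, hu, hle⟩ : ∃ u ∈ S, finrank K
        ↥(Finsupp.supported K K (↑(S.erase u) : Set (ℤ × ℤ)) ⊓ V) ≤ c := by
      have hmono : ∀ u, Finsupp.supported K K (↑(S.erase u) : Set (ℤ × ℤ)) ⊓ V ≤
          Finsupp.supported K K (↑S : Set (ℤ × ℤ)) ⊓ V := fun u =>
        inf_le_inf_right V (Finsupp.supported_mono (by exact_mod_cast Finset.erase_subset u S))
      by_cases hb : Finsupp.supported K K (↑S : Set (ℤ × ℤ)) ⊓ V = ⊥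
      · obtain ⟨u, hu⟩ : S.Nonempty := by
          rw [← Finset.card_pos]; omega
        refine ⟨u, hu, ?_⟩
        have : Finsupp.supported K K (↑(S.erase u) : Set (ℤ × ℤ)) ⊓ V = ⊥ := by
          rw [eq_bot_iff, ← hb]; exact hmono u
        rw [this, finrank_bot]
        omega
      · obtain ⟨f, hf, hf0⟩ := (Submodule.ne_bot_iff _).1 hb
        obtain ⟨u, hu⟩ : ∃ u, f u ≠ 0 := by
          by_contra hcon
          push Not at hcon
          exact hf0 (Finsupp.ext hcon)
        have huS : u ∈ S := by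
          have h1 := (Finsupp.mem_supported K f).1 hf.1
          exact_mod_cast h1 (Finsupp.mem_support_iff.2 hu)
        refine ⟨u, huS, ?_⟩
        have hlt : Finsupp.supported K K (↑(S.erase u) : Set (ℤ × ℤ)) ⊓ V <
            Finsupp.supported K K (↑S : Set (ℤ × ℤ)) ⊓ V := by
          refine lt_of_le_of_ne (hmono u) ?_
          intro heq
          have h2 : f ∈ Finsupp.supported K K (↑(S.erase u) : Set (ℤ × ℤ)) ⊓ V := by
            rw [heq]; exact hf
          have h3 := (Finsupp.mem_supported K f).1 h2.1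
          have h4 := h3 (Finsupp.mem_support_iff.2 hu)
          simp at h4
        have := Submodule.finrank_lt_finrank_of_lt hlt
        omega
    have hcard := Finset.card_erase_of_mem hu
    obtain ⟨T, hTS, hT, hTV⟩ := ih (S.erase u) hle (by omega)
    refine ⟨T, hTS.trans (Finset.erase_subset u S), by omega, hTV⟩

end Pool.Agent.TH941.DB
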