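import Pool.Agent.TH763.DB.Defs

set_option autoImplicit false

/-! Doubling, DB3: transversality in one step. -/

namespace Pool.Agent.TH941.DB

open Finset Pool.Agent.TH176.Nag Pool.Agent.TH603.Sur Module Pool.Agent.TH763.DB Polynomial

/-! ### the Wronskian lemma -/

section wr
variable {K : Type} [Field K] [CharZero K]

/-- the Wronskian with `g` as a linear map -/
noncomputable def wr (g : K[X]) : K[X] →ₗ[K] K[X] where
  toFun f := derivative f * g - f * derivative g
  map_add' f h := by simp only [derivative_add]; ring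
  map_smul' c f := by
    simp only [derivative_smul, RingHom.id_apply, smul_sub, smul_mul_assoc]

theorem wr_self (g : K[X]) : wr g g = 0 := by
  change derivative g * g - g * derivative g = 0
  ring

theorem dvd_wr {g f : K[X]} {c : K} {n : ℕ} (h : (X - C c) ^ (n + 1) ∣ f) :
    (X - C c) ^ n ∣ wr g f := by
  obtain ⟨q, rfl⟩ := h
  change (X - C c) ^ n ∣ derivative ((X - C c) ^ (n + 1) * q) * g
    - (X - C c) ^ (n + 1) * q * derivative g
  refine ⟨(C ((n : K) + 1) * q + (X - C c) * derivative q) * g - (X - C c) * q * derivative g, ?_⟩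
  rw [derivative_mul, derivative_pow_succ, derivative_sub, derivative_X, derivative_C]
  simp only [map_add, map_natCast, map_one]
  ring

theorem wr_eq_zero {g f : K[X]} {c : K} {n : ℕ} (hg : g.eval c ≠ 0)
    (h : (X - C c) ^ (n + 1) ∣ f) (hw : wr g f = 0) : f = 0 := by
  by_contra hf
  set k := rootMultiplicity c f with hk
  have hkn : n + 1 ≤ k := (le_rootMultiplicity_iff hf).2 h
  obtain ⟨q, hq, hnd⟩ := exists_eq_pow_rootMultiplicity_mul_and_not_dvd f hf c
  rw [← hk] at hq
  have hqc : q.eval c ≠ 0 := by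
    intro h0
    exact hnd (dvd_iff_isRoot.2 h0)
  obtain ⟨k', hk'⟩ : ∃ k', k = k' + 1 := ⟨k - 1, by omega⟩
  have h1 : derivative f * g - f * derivative g = 0 := hw
  rw [hq, hk', derivative_mul, derivative_pow_succ, derivative_sub, derivative_X, derivative_C] at h1
  have h2 : (X - C c) ^ k' * (C ((k' : K) + 1) * q * g
      + (X - C c) * (derivative q * g - q * derivative g)) = 0 := by
    rw [← h1]
    simp only [map_add, map_natCast, map_one]
    ring
  have h3 : C ((k' : K) + 1) * q * g + (X - C c) * (derivative q * g - q * derivative g) = 0 :=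
    (mul_eq_zero.1 h2).resolve_left (pow_ne_zero _ (X_sub_C_ne_zero c))
  have h4 := congrArg (eval c) h3
  simp only [eval_add, eval_mul, eval_C, eval_sub, eval_X, sub_self, zero_mul, add_zero,
    eval_zero] at h4
  have h5 : ((k' : K) + 1) ≠ 0 := by exact_mod_cast Nat.succ_ne_zero k'
  exact (mul_ne_zero (mul_ne_zero h5 hqc) hg) h4

theorem exists_good (n : ℕ) : ∀ A : Submodule K K[X], FiniteDimensional K A → finrank K A ≤ n →
    ∃ P : K[X], P ≠ 0 ∧ ∀ c : K, P.eval c ≠ 0 → ∀ f ∈ A, (X - C c) ^ n ∣ f → f = 0 := by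
  induction n with
  | zero =>
    intro A hfin hA
    refine ⟨1, one_ne_zero, ?_⟩
    intro c _ f hf _
    have : A = ⊥ := Submodule.finrank_eq_zero.1 (by omega)
    rw [this] at hf
    exact (Submodule.mem_bot K).1 hf
  | succ n ih =>
    intro A hfin hA
    by_cases hb : A = ⊥
    · refine ⟨1, one_ne_zero, ?_⟩
      intro c _ f hf _
      rw [hb] at hf
      exact (Submodule.mem_bot K).1 hf
    · obtain ⟨g, hg, hg0⟩ := (Submodule.ne_bot_iff _).1 hb
      have hr := LinearMap.finrank_range_add_finrank_ker ((wr g).domRestrict A)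
      have hk : 0 < finrank K ↥(LinearMap.ker ((wr g).domRestrict A)) := by
        rw [Nat.pos_iff_ne_zero]
        intro h0
        have h1 := Submodule.finrank_eq_zero.1 h0
        have h2 : (⟨g, hg⟩ : A) ∈ LinearMap.ker ((wr g).domRestrict A) := by
          rw [LinearMap.mem_ker, LinearMap.domRestrict_apply]
          exact wr_self g
        rw [h1, Submodule.mem_bot] at h2
        exact hg0 (congrArg Subtype.val h2)
      obtain ⟨P, hP0, hP⟩ := ih (LinearMap.range ((wr g).domRestrict A)) inferInstance (by omega)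
      refine ⟨P * g, mul_ne_zero hP0 hg0, ?_⟩
      intro c hc f hf hdvd
      rw [eval_mul] at hc
      have h1 := hP c (left_ne_zero_of_mul hc) (wr g f) ⟨⟨f, hf⟩, rfl⟩ (dvd_wr hdvd)
      exact wr_eq_zero (right_ne_zero_of_mul hc) hdvd h1

end wr

/-! ### parity -/

section par
variable {K : Type} [Field K]

/-- forms of degree `n` in `D`, `E`, of odd degree in `D` -/
def SO (D E : K × K) (n : ℕ) : Submodule K (K × K → K) :=
  Submodule.span K {P | ∃ k l : ℕ, k + l = n ∧ Odd k ∧ P = qq D E k l}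

/-- forms of degree `n` in `D`, `E`, of even degree in `D` -/
def SE (D E : K × K) (n : ℕ) : Submodule K (K × K → K) :=
  Submodule.span K {P | ∃ k l : ℕ, k + l = n ∧ Even k ∧ P = qq D E k l}

theorem SO_D {D E : K × K} {n : ℕ} {P : K × K → K} (h : P ∈ SO D E n) :
    (fun u => lin D u * P u) ∈ SE D E (n + 1) := by
  induction h using Submodule.span_induction with
  | mem P h =>
    obtain ⟨k, l, hkl, hk, rfl⟩ := h
    refine Submodule.subset_span ⟨k + 1, l, by omega, hk.add_one, ?_⟩
    funext u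
    unfold qq
    ring
  | zero =>
    convert (SE D E (n + 1)).zero_mem using 1
    funext u
    simp
  | add P Q _ _ h1 h2 =>
    convert (SE D E (n + 1)).add_mem h1 h2 using 1
    funext u
    simp only [Pi.add_apply]
    ring
  | smul c P _ h1 =>
    convert (SE D E (n + 1)).smul_mem c h1 using 1
    funext u
    simp only [Pi.smul_apply, smul_eq_mul]
    ring

theorem SO_E {D E : K × K} {n : ℕ} {P : K × K → K} (h : P ∈ SO D E n) :
    (fun u => lin E u * P u) ∈ SO D E (n + 1) := by
  induction h using Submodule.span_induction with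
  | mem P h =>
    obtain ⟨k, l, hkl, hk, rfl⟩ := h
    refine Submodule.subset_span ⟨k, l + 1, by omega, hk, ?_⟩
    funext u
    unfold qq
    ring
  | zero =>
    convert (SO D E (n + 1)).zero_mem using 1
    funext u
    simp
  | add P Q _ _ h1 h2 =>
    convert (SO D E (n + 1)).add_mem h1 h2 using 1
    funext u
    simp only [Pi.add_apply]
    ring
  | smul c P _ h1 =>
    convert (SO D E (n + 1)).smul_mem c h1 using 1
    funext u
    simp only [Pi.smul_apply, smul_eq_mul]
    ring

theorem SE_D {D E : K × K} {n : ℕ} {P : K × K → K} (h : P ∈ SE D E n) :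
    (fun u => lin D u * P u) ∈ SO D E (n + 1) := by
  induction h using Submodule.span_induction with
  | mem P h =>
    obtain ⟨k, l, hkl, hk, rfl⟩ := h
    refine Submodule.subset_span ⟨k + 1, l, by omega, hk.add_one, ?_⟩
    funext u
    unfold qq
    ring
  | zero =>
    convert (SO D E (n + 1)).zero_mem using 1
    funext u
    simp
  | add P Q _ _ h1 h2 =>
    convert (SO D E (n + 1)).add_mem h1 h2 using 1
    funext u
    simp only [Pi.add_apply]
    ring
  | smul c P _ h1 =>
    convert (SO D E (n + 1)).smul_mem c h1 using 1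
    funext u
    simp only [Pi.smul_apply, smul_eq_mul]
    ring

theorem SE_E {D E : K × K} {n : ℕ} {P : K × K → K} (h : P ∈ SE D E n) :
    (fun u => lin E u * P u) ∈ SE D E (n + 1) := by
  induction h using Submodule.span_induction with
  | mem P h =>
    obtain ⟨k, l, hkl, hk, rfl⟩ := h
    refine Submodule.subset_span ⟨k, l + 1, by omega, hk, ?_⟩
    funext u
    unfold qq
    ring
  | zero =>
    convert (SE D E (n + 1)).zero_mem using 1
    funext u
    simp
  | add P Q _ _ h1 h2 =>
    convert (SE D E (n + 1)).add_mem h1 h2 using 1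
    funext u
    simp only [Pi.add_apply]
    ring
  | smul c P _ h1 =>
    convert (SE D E (n + 1)).smul_mem c h1 using 1
    funext u
    simp only [Pi.smul_apply, smul_eq_mul]
    ring

/-- multiplication of a pair by `D + E` -/
theorem pair_add {D E : K × K} {n : ℕ} {F G : K × K → K} (h1 : (fun u => F u - G u) ∈ SO D E n)
    (h2 : (fun u => F u + G u) ∈ SE D E n) :
    (fun u => (lin D u + lin E u) * F u - (lin E u - lin D u) * G u) ∈ SO D E (n + 1) ∧
    (fun u => (lin D u + lin E u) * F u + (lin E u - lin D u) * G u) ∈ SE D E (n + 1) := by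
  constructor
  · convert (SO D E (n + 1)).add_mem (SE_D h2) (SO_E h1) using 1
    funext u
    simp only [Pi.add_apply]
    ring
  · convert (SE D E (n + 1)).add_mem (SO_D h1) (SE_E h2) using 1
    funext u
    simp only [Pi.add_apply]
    ring

/-- multiplication of a pair by `D - E` -/
theorem pair_sub {D E : K × K} {n : ℕ} {F G : K × K → K} (h1 : (fun u => F u - G u) ∈ SO D E n)
    (h2 : (fun u => F u + G u) ∈ SE D E n) :
    (fun u => (lin D u - lin E u) * F u - (-lin D u - lin E u) * G u) ∈ SO D E (n + 1) ∧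
    (fun u => (lin D u - lin E u) * F u + (-lin D u - lin E u) * G u) ∈ SE D E (n + 1) := by
  constructor
  · convert (SO D E (n + 1)).sub_mem (SE_D h2) (SO_E h1) using 1
    funext u
    simp only [Pi.sub_apply]
    ring
  · convert (SE D E (n + 1)).sub_mem (SO_D h1) (SE_E h2) using 1
    funext u
    simp only [Pi.sub_apply]
    ring

theorem pair_pow (D E : K × K) (p q : ℕ) :
    (fun u => (lin D u + lin E u) ^ p * (lin D u - lin E u) ^ q
      - (lin E u - lin D u) ^ p * (-lin D u - lin E u) ^ q) ∈ SO D E (p + q) ∧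
    (fun u => (lin D u + lin E u) ^ p * (lin D u - lin E u) ^ q
      + (lin E u - lin D u) ^ p * (-lin D u - lin E u) ^ q) ∈ SE D E (p + q) := by
  induction p with
  | zero =>
    induction q with
    | zero =>
      constructor
      · convert (SO D E (0 + 0)).zero_mem using 1
        funext u
        simp
      · have h1 : qq D E 0 0 ∈ SE D E (0 + 0) :=
          Submodule.subset_span ⟨0, 0, rfl, Even.zero, rfl⟩
        convert (SE D E (0 + 0)).add_mem h1 h1 using 1
        funext u
        simp [qq]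
    | succ q ih =>
      have h := pair_sub ih.1 ih.2
      have e : 0 + (q + 1) = 0 + q + 1 := rfl
      rw [e]
      constructor
      · convert h.1 using 1
        funext u
        ring
      · convert h.2 using 1
        funext u
        ring
  | succ p ih =>
    have h := pair_add ih.1 ih.2
    have e : p + 1 + q = p + q + 1 := by ring
    rw [e]
    constructor
    · convert h.1 using 1
      funext u
      ring
    · convert h.2 using 1
      funext u
      ring

theorem pr_SO {x y : K} {D E : K × K} {m : ℕ} {f : (ℤ × ℤ) →₀ K} (hf : f ∈ Od x y D E m)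
    {P : K × K → K} (hP : P ∈ SO D E (2 * m)) : pr f x y P = 0 := by
  unfold Od at hf
  simp only [Submodule.mem_iInf] at hf
  induction hP using Submodule.span_induction with
  | mem P h =>
    obtain ⟨k, l, hkl, hk, rfl⟩ := h
    exact mem_Ker.1 (hf k l hkl hk)
  | zero =>
    unfold pr
    simp
  | add P Q _ _ h1 h2 =>
    rw [pr_add_right, h1, h2, add_zero]
  | smul c P _ h1 =>
    rw [pr_smul_right, h1, mul_zero]

end par

/-! ### the functionals -/

section fn
variable {K : Type} [Field K]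

/-- the pairing as a linear map in the Laurent polynomial -/
noncomputable def prL (x y : K) (P : K × K → K) : ((ℤ × ℤ) →₀ K) →ₗ[K] K where
  toFun f := pr f x y P
  map_add' f g := pr_add_left' f g x y P
  map_smul' c f := by rw [pr_smul_left]; rfl

/-- the pairing as a linear map in the function -/
noncomputable def prR (f : (ℤ × ℤ) →₀ K) (x y : K) : (K × K → K) →ₗ[K] K where
  toFun P := pr f x y P
  map_add' P Q := pr_add_right f x y P Q
  map_smul' c P := by rw [pr_smul_right]; rfl

/-- the Taylor functionals at `c` -/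
def tf (m : ℕ) (c : K) (i : ℕ) : K × K → K := fun u => (u.1 + c * u.2) ^ (2 * m - i) * u.2 ^ i

/-- the polynomial attached to a Laurent polynomial -/
noncomputable def pf (x y : K) (m : ℕ) : ((ℤ × ℤ) →₀ K) →ₗ[K] K[X] where
  toFun f := ∑ j ∈ range (2 * m + 1), C (((2 * m).choose j : K) * pr f x y (tf m 0 j)) * X ^ j
  map_add' f g := by
    rw [← Finset.sum_add_distrib]
    apply Finset.sum_congr rfl
    intro j _
    rw [pr_add_left', mul_add, C_add]
    ring
  map_smul' c f := by
    rw [RingHom.id_apply, Finset.smul_sum]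
    apply Finset.sum_congr rfl
    intro j _
    rw [pr_smul_left, smul_eq_C_mul]
    simp only [C_mul]
    ring

theorem eval_taylor (x y : K) (m : ℕ) (c z : K) (f : (ℤ × ℤ) →₀ K) :
    ∑ i ∈ range (2 * m + 1), ((2 * m).choose i : K) * pr f x y (tf m c i) * (z - c) ^ i
      = pr f x y (fun u => (u.1 + z * u.2) ^ (2 * m)) := by
  have h1 : (fun u : K × K => (u.1 + z * u.2) ^ (2 * m))
      = ∑ i ∈ range (2 * m + 1), (((2 * m).choose i : K) * (z - c) ^ i) • tf m c i := by
    funext u
    have : u.1 + z * u.2 = (z - c) * u.2 + (u.1 + c * u.2) := by ring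
    rw [this, add_pow, Finset.sum_apply]
    apply Finset.sum_congr rfl
    intro i _
    simp only [Pi.smul_apply, smul_eq_mul, tf]
    rw [mul_pow]
    ring
  have h2 := congrArg (prR f x y) h1
  rw [map_sum] at h2
  have h3 : prR f x y (fun u : K × K => (u.1 + z * u.2) ^ (2 * m))
    = pr f x y (fun u : K × K => (u.1 + z * u.2) ^ (2 * m)) := rfl
  rw [← h3, h2]
  apply Finset.sum_congr rfl
  intro i _
  rw [map_smul]
  change _ = _ * pr f x y _
  ring

theorem eval_pf (x y : K) (m : ℕ) (z : K) (f : (ℤ × ℤ) →₀ K) :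
    (pf x y m f).eval z = pr f x y (fun u => (u.1 + z * u.2) ^ (2 * m)) := by
  rw [← eval_taylor x y m 0 z f]
  change eval z (∑ j ∈ range (2 * m + 1), C (((2 * m).choose j : K) * pr f x y (tf m 0 j)) * X ^ j)
    = _
  rw [eval_finsetSum]
  apply Finset.sum_congr rfl
  intro j _
  simp

theorem pf_taylor [CharZero K] (x y : K) (m : ℕ) (c : K) (f : (ℤ × ℤ) →₀ K) :
    pf x y m f = ∑ i ∈ range (2 * m + 1),
      C (((2 * m).choose i : K) * pr f x y (tf m c i)) * (X - C c) ^ i := by
  apply Polynomial.funext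
  intro z
  rw [eval_pf, ← eval_taylor x y m c z f, eval_finsetSum]
  apply Finset.sum_congr rfl
  intro j _
  simp

theorem dvd_pf [CharZero K] {x y : K} {m : ℕ} {c : K} {f : (ℤ × ℤ) →₀ K} {w : ℕ}
    (h : ∀ i < w, pr f x y (tf m c i) = 0) : (X - C c) ^ w ∣ pf x y m f := by
  rw [pf_taylor x y m c f]
  apply Finset.dvd_sum
  intro i _
  by_cases hi : i < w
  · rw [h i hi]
    simp
  · exact Dvd.dvd.mul_left (pow_dvd_pow _ (by omega)) _

theorem ker_pf [CharZero K] (x y : K) (m : ℕ) :
    LinearMap.ker (pf x y m) ≤ Pool.Agent.TH763.DB.Top x y m := by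
  intro f hf
  rw [LinearMap.mem_ker] at hf
  unfold Pool.Agent.TH763.DB.Top
  simp only [Submodule.mem_iInf]
  intro a b hab
  rw [mem_Ker]
  have h1 := congrArg (fun p => coeff p b) hf
  change coeff (∑ j ∈ range (2 * m + 1), C (((2 * m).choose j : K) * pr f x y (tf m 0 j)) * X ^ j) b
    = coeff 0 b at h1
  rw [finsetSum_coeff, coeff_zero] at h1
  simp only [coeff_C_mul_X_pow] at h1
  rw [Finset.sum_ite_eq, if_pos (Finset.mem_range.2 (by omega))] at h1
  have hne : ((2 * m).choose b : K) ≠ 0 := by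
    exact_mod_cast (Nat.choose_pos (show b ≤ 2 * m by omega)).ne'
  have h2 := (mul_eq_zero.1 h1).resolve_left hne
  convert h2 using 2
  funext u
  unfold tf
  have : 2 * m - b = a := by omega
  rw [this]
  simp

/-- the functionals of the tilted conditions -/
def tg (m : ℕ) (c ε : K) (i : ℕ) : K × K → K :=
  fun u => tf m c i u - ε ^ (2 * m - 2 * i) * tf m c (2 * m - i) u

theorem pr_tg [CharZero K] {x y : K} {m : ℕ} {c ε : K} (hε : ε ≠ 0) {f : (ℤ × ℤ) →₀ K}
    (hf : f ∈ Od x y ((1 : K), c + ε) ((1 : K), c - ε) m) {i : ℕ} (hi : i < m) :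
    pr f x y (tg m c ε i) = 0 := by
  have h1 := pr_SO hf (P := fun u => (lin ((1 : K), c + ε) u + lin ((1 : K), c - ε) u) ^ (2 * m - i)
      * (lin ((1 : K), c + ε) u - lin ((1 : K), c - ε) u) ^ i
      - (lin ((1 : K), c - ε) u - lin ((1 : K), c + ε) u) ^ (2 * m - i)
      * (-lin ((1 : K), c + ε) u - lin ((1 : K), c - ε) u) ^ i) (by
    have := (pair_pow ((1 : K), c + ε) ((1 : K), c - ε) (2 * m - i) i).1
    rwa [show 2 * m - i + i = 2 * m by omega] at this)
  have h2 : (fun u : K × K => (lin ((1 : K), c + ε) u + lin ((1 : K), c - ε) u) ^ (2 * m - i)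
      * (lin ((1 : K), c + ε) u - lin ((1 : K), c - ε) u) ^ i
      - (lin ((1 : K), c - ε) u - lin ((1 : K), c + ε) u) ^ (2 * m - i)
      * (-lin ((1 : K), c + ε) u - lin ((1 : K), c - ε) u) ^ i)
      = ((2 : K) ^ (2 * m) * ε ^ i) • tg m c ε i := by
    funext u
    simp only [Pi.smul_apply, smul_eq_mul, tg, tf, lin]
    obtain ⟨a, ha⟩ : ∃ a, 2 * m - 2 * i = 2 * a ∧ m = i + a := ⟨m - i, by omega, by omega⟩
    obtain ⟨ha1, ha2⟩ := ha
    have e1 : 2 * m - i = i + 2 * a := by omega
    have e2 : 2 * m - (2 * m - i) = i := by omega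
    have e3 : 2 * m = 2 * i + 2 * a := by omega
    rw [ha1, e2, e1, e3]
    have f1 : (1 * u.1 + (c + ε) * u.2 + (1 * u.1 + (c - ε) * u.2)) = 2 * (u.1 + c * u.2) := by ring
    have f2 : (1 * u.1 + (c + ε) * u.2 - (1 * u.1 + (c - ε) * u.2)) = 2 * (ε * u.2) := by ring
    have f3 : (1 * u.1 + (c - ε) * u.2 - (1 * u.1 + (c + ε) * u.2)) = -(2 * (ε * u.2)) := by ring
    have f4 : (-(1 * u.1 + (c + ε) * u.2) - (1 * u.1 + (c - ε) * u.2)) = -(2 * (u.1 + c * u.2)) := by
      ring
    rw [f1, f2, f3, f4]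
    have g1 : (-(2 * (ε * u.2))) ^ (i + 2 * a) = (-1) ^ i * (2 * (ε * u.2)) ^ (i + 2 * a) := by
      rw [neg_pow, pow_add (-1 : K), pow_mul (-1 : K) 2 a]
      simp
    have g2 : (-(2 * (u.1 + c * u.2))) ^ i = (-1) ^ i * (2 * (u.1 + c * u.2)) ^ i := neg_pow _ _
    have g3 : ((-1 : K)) ^ i * (-1) ^ i = 1 := by
      rw [← mul_pow]; simp
    rw [g1, g2]
    have g4 : (-1 : K) ^ i * (2 * (ε * u.2)) ^ (i + 2 * a) * ((-1) ^ i * (2 * (u.1 + c * u.2)) ^ i)
        = (2 * (ε * u.2)) ^ (i + 2 * a) * (2 * (u.1 + c * u.2)) ^ i := by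
      calc _ = ((-1 : K) ^ i * (-1) ^ i) * ((2 * (ε * u.2)) ^ (i + 2 * a)
            * (2 * (u.1 + c * u.2)) ^ i) := by ring
        _ = _ := by rw [g3, one_mul]
    rw [g4]
    generalize u.1 + c * u.2 = z
    simp only [mul_pow]
    ring
  rw [h2, pr_smul_right] at h1
  exact (mul_eq_zero.1 h1).resolve_left
    (mul_ne_zero (pow_ne_zero _ two_ne_zero) (pow_ne_zero _ hε))

end fn

/-! ### the proof -/

section fin
variable {K : Type} [Field K] [CharZero K]

omit [CharZero K] in
theorem rn {V W : Type} [AddCommGroup V] [Module K V] [AddCommGroup W] [Module K W]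
    [FiniteDimensional K V] (f : V →ₗ[K] W) :
    finrank K ↥(LinearMap.range f) + finrank K ↥(LinearMap.ker f) = finrank K V :=
  LinearMap.finrank_range_add_finrank_ker f

omit [CharZero K] in
theorem fm {V : Type} [AddCommGroup V] [Module K V] [FiniteDimensional K V] {S T : Submodule K V}
    (h : S ≤ T) : finrank K ↥S ≤ finrank K ↥T := Submodule.finrank_mono h

theorem exists_eval_ne {P : K[X]} (hP : P ≠ 0) : ∃ c : K, P.eval c ≠ 0 := by
  by_contra hcon
  push Not at hcon
  apply hP
  apply Polynomial.funext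
  intro c
  rw [hcon c, eval_zero]

theorem taylor_surj {x y : K} {m : ℕ} {V : Submodule K ((ℤ × ℤ) →₀ K)} [FiniteDimensional K V]
    {c : K} {w : ℕ} (hw : finrank K ↥(LinearMap.range ((pf x y m).domRestrict V)) = w)
    (hc : ∀ f ∈ V, (X - C c) ^ w ∣ pf x y m f → pf x y m f = 0)
    {w' : ℕ} (hw' : w' ≤ w) (t : Fin w' → K) :
    ∃ f ∈ V, ∀ i : Fin w', pr f x y (tf m c i) = t i := by
  set Θ : V →ₗ[K] (Fin w → K) :=
    LinearMap.pi fun i => (prL x y (tf m c i)).domRestrict V with hΘ
  have hker : LinearMap.ker Θ ≤ LinearMap.ker ((pf x y m).domRestrict V) := by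
    intro f hf
    rw [LinearMap.mem_ker] at hf ⊢
    rw [LinearMap.domRestrict_apply]
    apply hc f.1 f.2
    apply dvd_pf
    intro i hi
    exact congrFun hf ⟨i, hi⟩
  have h1 := rn (V := ↥V) (W := Fin w → K) Θ
  have h2 := rn (V := ↥V) (W := K[X]) ((pf x y m).domRestrict V)
  have h3 := fm (V := ↥V) hker
  have h4 : LinearMap.range Θ = ⊤ := by
    apply Submodule.eq_top_of_finrank_eq
    have h5 := Submodule.finrank_le (LinearMap.range Θ)
    rw [Module.finrank_fin_fun] at h5 ⊢
    omega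
  obtain ⟨f, hf⟩ : (fun i : Fin w => if h : (i : ℕ) < w' then t ⟨i, h⟩ else 0) ∈ LinearMap.range Θ := by
    rw [h4]; trivial
  refine ⟨f.1, f.2, fun i => ?_⟩
  have h5 := congrFun hf ⟨i, lt_of_lt_of_le i.2 hw'⟩
  simp only [i.2, dite_true] at h5
  exact h5

theorem bound_of_det {x y : K} {m : ℕ} {V : Submodule K ((ℤ × ℤ) →₀ K)} [FiniteDimensional K V]
    {c ε : K} (hε : ε ≠ 0) {w' : ℕ} (hw'm : w' ≤ m) (g : Fin w' → ((ℤ × ℤ) →₀ K))
    (hg : ∀ j, g j ∈ V)
    (hdet : (Matrix.of fun i j : Fin w' => pr (g j) x y (tg m c ε i)).det ≠ 0) :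
    finrank K ↥(V ⊓ Od x y ((1 : K), c + ε) ((1 : K), c - ε) m) + w' ≤ finrank K V := by
  set M : Matrix (Fin w') (Fin w') K := Matrix.of fun i j : Fin w' => pr (g j) x y (tg m c ε i)
    with hM
  set Γ : V →ₗ[K] (Fin w' → K) :=
    LinearMap.pi fun i => (prL x y (tg m c ε i)).domRestrict V with hΓ
  have hsurj : LinearMap.range Γ = ⊤ := by
    rw [LinearMap.range_eq_top]
    intro t
    refine ⟨∑ j, (M⁻¹.mulVec t) j • (⟨g j, hg j⟩ : V), ?_⟩
    rw [map_sum]
    funext i
    rw [Finset.sum_apply]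
    have h1 : ∀ j, (Γ ((M⁻¹.mulVec t) j • (⟨g j, hg j⟩ : V))) i = M i j * (M⁻¹.mulVec t) j := by
      intro j
      rw [map_smul, Pi.smul_apply, smul_eq_mul, mul_comm]
      rfl
    rw [Finset.sum_congr rfl (fun j _ => h1 j)]
    have h2 : M.mulVec (M⁻¹.mulVec t) = t := by
      rw [Matrix.mulVec_mulVec, Matrix.mul_nonsing_inv _ (Ne.isUnit hdet), Matrix.one_mulVec]
    exact congrFun h2 i
  have h1 := rn (V := ↥V) (W := Fin w' → K) Γ
  rw [hsurj, finrank_top, Module.finrank_fin_fun] at h1
  have h2 : (V ⊓ Od x y ((1 : K), c + ε) ((1 : K), c - ε) m).comap V.subtype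
      ≤ LinearMap.ker Γ := by
    intro f hf
    rw [LinearMap.mem_ker]
    funext i
    exact pr_tg hε hf.2 (lt_of_lt_of_le i.2 hw'm)
  have h3 := fm (V := ↥V) h2
  have h4 := LinearEquiv.finrank_eq (Submodule.comapSubtypeEquivOfLe
    (inf_le_left : V ⊓ Od x y ((1 : K), c + ε) ((1 : K), c - ε) m ≤ V))
  omega

/-- the matrix of polynomials in `ε` -/
noncomputable def NM (x y : K) (m : ℕ) (c : K) {w' : ℕ} (g : Fin w' → ((ℤ × ℤ) →₀ K)) :
    Matrix (Fin w') (Fin w') K[X] :=
  Matrix.of fun i j => C (pr (g j) x y (tf m c i))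
    - X ^ (2 * m - 2 * (i : ℕ)) * C (pr (g j) x y (tf m c (2 * m - i)))

omit [CharZero K] in
theorem pr_tg_eq (x y : K) (m : ℕ) (c ε : K) (i : ℕ) (f : (ℤ × ℤ) →₀ K) :
    pr f x y (tg m c ε i) = pr f x y (tf m c i) - ε ^ (2 * m - 2 * i) * pr f x y (tf m c (2 * m - i)) := by
  have h : tg m c ε i = tf m c i + (-(ε ^ (2 * m - 2 * i))) • tf m c (2 * m - i) := by
    funext u
    simp only [tg, Pi.add_apply, Pi.smul_apply, smul_eq_mul]
    ring
  rw [h, pr_add_right, pr_smul_right]
  ring

omit [CharZero K] in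
theorem NM_eval (x y : K) (m : ℕ) (c ε : K) {w' : ℕ} (g : Fin w' → ((ℤ × ℤ) →₀ K)) :
    (NM x y m c g).det.eval ε = (Matrix.of fun i j : Fin w' => pr (g j) x y (tg m c ε i)).det := by
  have h := RingHom.map_det (evalRingHom ε) (NM x y m c g)
  rw [coe_evalRingHom] at h
  rw [h]
  congr 1
  ext i j
  rw [RingHom.mapMatrix_apply, Matrix.map_apply, coe_evalRingHom, Matrix.of_apply, pr_tg_eq]
  unfold NM
  rw [Matrix.of_apply]
  simp only [eval_sub, eval_C, eval_mul, eval_pow, eval_X]

omit [CharZero K] in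
theorem NM_ne {x y : K} {m : ℕ} {c : K} {w' : ℕ} (hw' : w' ≤ m) {g : Fin w' → ((ℤ × ℤ) →₀ K)}
    (hg : ∀ i j : Fin w', pr (g j) x y (tf m c i) = if i = j then 1 else 0) :
    (NM x y m c g).det ≠ 0 := by
  intro h0
  have h1 := NM_eval x y m c 0 g
  rw [h0, eval_zero] at h1
  have h2 : (Matrix.of fun i j : Fin w' => pr (g j) x y (tg m c 0 i)) = 1 := by
    ext i j
    rw [Matrix.of_apply, pr_tg_eq, hg i j, Matrix.one_apply,
      zero_pow (by have := i.2; omega : 2 * m - 2 * (i : ℕ) ≠ 0), zero_mul, sub_zero]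
  rw [h2, Matrix.det_one] at h1
  exact zero_ne_one h1

/-- transversality in one step -/
theorem trans_one {K : Type} [Field K] [CharZero K] (x y : K) (m : ℕ) {τ : Type} [Finite τ]
    (A : τ → Submodule K ((ℤ × ℤ) →₀ K)) (hA : ∀ s, FiniteDimensional K ↥(A s)) :
    ∃ D E : K × K, D.1 * E.2 - D.2 * E.1 ≠ 0 ∧ ∀ s,
      finrank K ↥(A s ⊓ Od x y D E m) ≤
        max (finrank K ↥(A s ⊓ Pool.Agent.TH763.DB.Top x y m)) (finrank K ↥(A s) - m) := by
  classical
  cases nonempty_fintype τ
  set w : τ → ℕ := fun s => finrank K ↥(LinearMap.range ((pf x y m).domRestrict (A s))) with hw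
  have hgood : ∀ s, ∃ P : K[X], P ≠ 0 ∧ ∀ c : K, P.eval c ≠ 0 →
      ∀ f ∈ LinearMap.range ((pf x y m).domRestrict (A s)), (X - C c) ^ (w s) ∣ f → f = 0 :=
    fun s => exists_good (w s) _ inferInstance le_rfl
  choose P hP0 hP using hgood
  obtain ⟨c, hc⟩ := exists_eval_ne (Finset.prod_ne_zero_iff.2 fun s (_ : s ∈ Finset.univ) => hP0 s)
  rw [eval_prod, Finset.prod_ne_zero_iff] at hc
  have hc' : ∀ s, ∀ f ∈ A s, (X - C c) ^ (w s) ∣ pf x y m f → pf x y m f = 0 := by
    intro s f hf hd
    exact hP s c (hc s (Finset.mem_univ s)) _ ⟨⟨f, hf⟩, rfl⟩ hd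
  have hvec : ∀ s, ∃ g : Fin (min m (w s)) → ((ℤ × ℤ) →₀ K), (∀ j, g j ∈ A s) ∧
      ∀ i j : Fin (min m (w s)), pr (g j) x y (tf m c i) = if i = j then 1 else 0 := by
    intro s
    have h1 : ∀ j : Fin (min m (w s)), ∃ f ∈ A s, ∀ i : Fin (min m (w s)),
        pr f x y (tf m c i) = if i = j then 1 else 0 := fun j =>
      taylor_surj (w := w s) rfl (hc' s) (min_le_right _ _) (fun i => if i = j then 1 else 0)
    choose g hg1 hg2 using h1
    exact ⟨g, hg1, fun i j => hg2 j i⟩
  choose g hg hgd using hvec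
  have hQ : ∀ s, (NM x y m c (g s)).det ≠ 0 := fun s => NM_ne (min_le_left _ _) (hgd s)
  obtain ⟨ε, hε⟩ := exists_eval_ne (mul_ne_zero (X_ne_zero (R := K))
    (Finset.prod_ne_zero_iff.2 fun s (_ : s ∈ Finset.univ) => hQ s))
  rw [eval_mul, eval_X, eval_prod] at hε
  have hε0 : ε ≠ 0 := left_ne_zero_of_mul hε
  have hε1 := Finset.prod_ne_zero_iff.1 (right_ne_zero_of_mul hε)
  refine ⟨((1 : K), c + ε), ((1 : K), c - ε), ?_, ?_⟩
  · have : (1 : K) * (c - ε) - (c + ε) * 1 = -(2 * ε) := by ring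
    change (1 : K) * (c - ε) - (c + ε) * 1 ≠ 0
    rw [this]
    exact neg_ne_zero.2 (mul_ne_zero two_ne_zero hε0)
  · intro s
    have := hA s
    have h1 := bound_of_det (V := A s) hε0 (min_le_left m (w s)) (g s) (hg s)
      (by rw [← NM_eval]; exact hε1 s (Finset.mem_univ s))
    have h2 := rn (V := ↥(A s)) (W := K[X]) ((pf x y m).domRestrict (A s))
    have h3 : finrank K ↥(LinearMap.ker ((pf x y m).domRestrict (A s))) ≤
        finrank K ↥(A s ⊓ Pool.Agent.TH763.DB.Top x y m) := by
      rw [← Submodule.finrank_map_subtype_eq (A s) (LinearMap.ker ((pf x y m).domRestrict (A s)))]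
      have : FiniteDimensional K ↥(A s ⊓ Pool.Agent.TH763.DB.Top x y m) :=
        Submodule.finiteDimensional_of_le inf_le_left
      apply Submodule.finrank_mono
      rintro f ⟨f', hf', rfl⟩
      refine ⟨f'.2, ker_pf x y m ?_⟩
      exact hf'
    change w s + _ = _ at h2
    omega

end fin

end Pool.Agent.TH941.DB
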